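import Pool.Agent.TH966.KO.Rates
import Pool.Agent.H46R2.K3.EQ

/-!
Self-avoiding walks on `ℤ³`: `-K n^(-1/3+ε) ≤ c_(n+2)/c_n - μ² ≤ K n^(-2/5+ε)` for all `n ≥ 1`.
-/

namespace Pool.Agent.Results.MP_794e6e_pr.RatioRates

open Filter Topology

/-- the number of `n`-step self-avoiding nearest-neighbour walks on `ℤ³` from `0` -/
noncomputable def C (n : ℕ) : ℕ :=
  Nat.card {f : Fin (n + 1) → (Fin 3 → ℤ) //
    f 0 = 0 ∧ Function.Injective f ∧
    ∀ i : Fin n, ∑ j : Fin 3, |f i.succ j - f i.castSucc j| = 1}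

/-- **Theorem.** On `ℤ³` the limit `μ` of `c_n^(1/n)` exists and is positive, and for every `ε > 0`
there is a constant `K` such that `-K n^(-1/3+ε) ≤ c_(n+2)/c_n - μ² ≤ K n^(-2/5+ε)` for all
`n ≥ 1`. -/
theorem result : ∃ μ : ℝ, 0 < μ ∧
    Tendsto (fun n : ℕ => (C n : ℝ) ^ (1 / (n : ℝ))) atTop (𝓝 μ) ∧
    ∀ ε : ℝ, 0 < ε → ∃ K : ℝ, ∀ n : ℕ, 1 ≤ n →
      -(K * (n : ℝ) ^ (-(1 / 3 : ℝ) + ε)) ≤ (C (n + 2) : ℝ) / C n - μ ^ 2 ∧
      (C (n + 2) : ℝ) / C n - μ ^ 2 ≤ K * (n : ℝ) ^ (-(2 / 5 : ℝ) + ε) := by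
  have hC : ∀ n, C n = TH966.KO.c n := fun n => Pool.Agent.H46R2.K3.P.card_eq n
  have hμ : 0 < TH966.KO.μ := by linarith [TH966.KO.mu_one]
  refine ⟨TH966.KO.μ, hμ, ?_, ?_⟩
  · simpa only [hC] using TH966.KO.tend
  · intro ε hε
    obtain ⟨K, hK⟩ := TH966.KO.rates ε hε
    obtain ⟨N, hN⟩ := eventually_atTop.1 hK
    set x : ℕ → ℝ := fun n => (TH966.KO.c (n + 2) : ℝ) / TH966.KO.c n - TH966.KO.μ ^ 2 with hx
    set M : ℝ := ∑ n ∈ Finset.range N, |x n| * n with hM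
    have hM0 : 0 ≤ M := Finset.sum_nonneg fun _ _ => by positivity
    refine ⟨|K| + M, fun n hn => ?_⟩
    rw [hC, hC]
    have hn1 : (1 : ℝ) ≤ n := by exact_mod_cast hn
    have hn0 : (0 : ℝ) < n := by linarith
    have hpow : ∀ e : ℝ, -1 ≤ e → (n : ℝ)⁻¹ ≤ (n : ℝ) ^ e := by
      intro e he
      rw [← Real.rpow_neg_one]
      exact Real.rpow_le_rpow_of_exponent_le hn1 he
    have key : ∀ e : ℝ, -1 ≤ e → n < N → |x n| ≤ (|K| + M) * (n : ℝ) ^ e := by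
      intro e he h
      have h1 : |x n| * n ≤ M := Finset.single_le_sum (f := fun n : ℕ => |x n| * n)
        (fun _ _ => by positivity) (Finset.mem_range.2 h)
      calc |x n| = (|x n| * n) * (n : ℝ)⁻¹ := by field_simp
        _ ≤ M * (n : ℝ) ^ e := mul_le_mul h1 (hpow e he) (by positivity) hM0
        _ ≤ _ := mul_le_mul_of_nonneg_right (by linarith [abs_nonneg K]) (by positivity)
    rcases Nat.lt_or_ge n N with h | h
    · have k1 := key (-(1 / 3 : ℝ) + ε) (by linarith) h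
      have k2 := key (-(2 / 5 : ℝ) + ε) (by linarith) h
      exact ⟨(abs_le.1 k1).1, (abs_le.1 k2).2⟩
    · obtain ⟨h1, h2⟩ := hN n h
      have hKM : K ≤ |K| + M := by linarith [le_abs_self K]
      have a1 : 0 ≤ (n : ℝ) ^ (-(1 / 3 : ℝ) + ε) := by positivity
      have a2 : 0 ≤ (n : ℝ) ^ (-(2 / 5 : ℝ) + ε) := by positivity
      have b1 := mul_le_mul_of_nonneg_right hKM a1
      have b2 := mul_le_mul_of_nonneg_right hKM a2
      constructor <;> linarith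

end Pool.Agent.Results.MP_794e6e_pr.RatioRates
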