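import Pool.Agent.Y943.SL.Three
import Pool.Agent.H46R2.K3.EQ

/-!
Self-avoiding walks on `ℤ³`: if `c_n / (μ^n n^(γ-1))` converges to a positive constant along a set of
lengths which meets `{n, n+2, n+4, ...}` before `n + o(√n)`, then it converges along all lengths.
-/

namespace Pool.Agent.Results.MP_794e6e_pr.SparseLengths

open Filter Topology

/-- the number of `n`-step self-avoiding nearest-neighbour walks on `ℤ³` from `0` -/
noncomputable def C (n : ℕ) : ℕ :=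
  Nat.card {f : Fin (n + 1) → (Fin 3 → ℤ) //
    f 0 = 0 ∧ Function.Injective f ∧
    ∀ i : Fin n, ∑ j : Fin 3, |f i.succ j - f i.castSucc j| = 1}

/-- **Theorem.** On `ℤ³` the limit `μ` of `c_n^(1/n)` exists and is positive.  Let `S` be a set of
lengths such that for every `δ > 0` and all large `n` there is an `m ∈ S` of the parity of `n` with
`n ≤ m ≤ n + δ √n`.  If `c_n / (μ^n n^(γ-1)) → A > 0` as `n → ∞` in `S`, then
`c_n / (μ^n n^(γ-1)) → A` as `n → ∞`. -/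
theorem result : ∃ μ : ℝ, 0 < μ ∧
    Tendsto (fun n : ℕ => (C n : ℝ) ^ (1 / (n : ℝ))) atTop (𝓝 μ) ∧
    ∀ S : Set ℕ,
      (∀ δ : ℝ, 0 < δ → ∀ᶠ n : ℕ in atTop, ∃ m ∈ S, m % 2 = n % 2 ∧ n ≤ m ∧
        (m : ℝ) ≤ n + δ * Real.sqrt n) →
      ∀ A γ : ℝ, 0 < A →
        Tendsto (fun n : ℕ => (C n : ℝ) / (μ ^ n * (n : ℝ) ^ (γ - 1))) (atTop ⊓ 𝓟 S) (𝓝 A) →
        Tendsto (fun n : ℕ => (C n : ℝ) / (μ ^ n * (n : ℝ) ^ (γ - 1))) atTop (𝓝 A) := by
  have hC : ∀ n, C n = TH966.KO.c n := fun n => Pool.Agent.H46R2.K3.P.card_eq n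
  have hW := Pool.Agent.Y943.SL.three
  refine ⟨TH966.KO.μ, hW.hμ, ?_, ?_⟩
  · simpa only [hC] using TH966.KO.tend
  · intro S hS A γ hA h
    simp only [hC] at h ⊢
    exact hW.form S hS A (γ - 1) hA h

end Pool.Agent.Results.MP_794e6e_pr.SparseLengths
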